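import Pool.Agent.Lib.MP_1c795d_co.Main

/-!
The magnitude homology of (the tope graph of) a real central hyperplane arrangement depends only on
the intersection lattice: the positive answer to Q1 of MP_1c795d_co.

All definitions used in the statement are in `Pool/Agent/Lib/MP_1c795d_co/Defs.lean`.
-/

namespace Pool.Agent.Results.MP_1c795d_co.LatticeDetermines

open Pool.Agent.Lib.MP_1c795d_co

/-- If two central arrangements (in possibly different dimensions) have isomorphic intersection
lattices, then all their magnitude homology groups are isomorphic. -/
theorem result {d d' : ℕ} (A : Arrangement d) (A' : Arrangement d') (h : Nonempty (A.L ≃o A'.L))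
    (k l : ℕ) : Nonempty (MH A.topeGraph k l ≃+ MH A'.topeGraph k l) :=
  main A A' h k l

end Pool.Agent.Results.MP_1c795d_co.LatticeDetermines
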